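import Mathlib
import Pool.Agent.Lib.Pda2ee6.Final

set_option autoImplicit false

open scoped ENNReal Topology ZeroAtInfty
open WeakDual Filter Metric

namespace Pool.Agent.Results.MP_da2ee6_an.SRDense

open Pool.Agent.Lib.Pda2ee6

/-- Gelfand transforms vanish at infinity on the character space. -/
lemma gelfand_mem {A : Type*} [NonUnitalNormedCommRing A] [NormedSpace ℂ A] [IsScalarTower ℂ A A]
    [SMulCommClass ℂ A A] [CompleteSpace A] (a : A) :
    ∃ F : C₀(characterSpace ℂ A, ℂ), ∀ φ : characterSpace ℂ A, F φ = φ a := by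
  have hc : Continuous (fun φ : characterSpace ℂ A => φ a) :=
    (WeakDual.eval_continuous a).comp continuous_subtype_val
  refine ⟨⟨⟨fun φ => φ a, hc⟩, ?_⟩, fun φ => rfl⟩
  rw [Metric.tendsto_nhds]
  intro ε hε
  rw [Filter.Eventually, Filter.mem_cocompact]
  let T : Set (KS A) := {k | ε ≤ ‖ev a k‖}
  have hT : IsCompact T := (isClosed_le continuous_const (ev a).continuous.norm).isCompact
  have hTr : T ⊆ Set.range (incl (A := A)) := by
    intro k hk
    rcases k.2 with h | h
    · exact ⟨⟨k.1, h⟩, rfl⟩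
    · exfalso
      have h1 : ε ≤ ‖ev a k‖ := hk
      have h2 : ev a k = 0 := by
        rw [ev_apply, show (k : WeakDual ℂ A) = 0 from h]
        rfl
      rw [h2, norm_zero] at h1
      linarith
  refine ⟨incl ⁻¹' T, incl_openEmbedding.isInducing.isCompact_preimage' hT hTr, ?_⟩
  intro φ hφ
  have h1 : ¬ ε ≤ ‖ev a (incl φ)‖ := hφ
  have h2 : ev a (incl φ) = φ a := rfl
  rw [h2, not_le] at h1
  change dist (φ a) 0 < ε
  rw [dist_zero_right]
  exact h1

/-- For every commutative SR-algebra `A` (complex commutative Banach algebra, unital or not), the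
algebra of Gelfand transforms is dense in `C₀(Σ(A))` for the sup norm. -/
theorem result (A : Type*) [NonUnitalNormedCommRing A] [NormedSpace ℂ A] [IsScalarTower ℂ A A]
    [SMulCommClass ℂ A A] [CompleteSpace A] (h : IsSRAlgebra A) :
    Dense {F : C₀(characterSpace ℂ A, ℂ) | ∃ a : A, ∀ φ : characterSpace ℂ A, F φ = φ a} := by
  rw [Metric.dense_iff]
  intro F ε hε
  obtain ⟨a, ha⟩ := final h F (ε / 2) (by positivity)
  obtain ⟨G, hG⟩ := gelfand_mem a
  refine ⟨G, ?_, a, hG⟩
  rw [mem_ball]
  refine lt_of_le_of_lt ?_ (half_lt_self hε)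
  rw [← ZeroAtInftyContinuousMap.dist_toBCF_eq_dist, BoundedContinuousFunction.dist_le (by positivity)]
  intro φ
  have := (ha φ).le
  rw [← hG φ] at this
  rw [dist_eq_norm]
  exact this

end Pool.Agent.Results.MP_da2ee6_an.SRDense
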